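import Mathlib

/-!
# Graphs of maximum degree 3 have blocking partitions of bounded width

Let `F` be a minimal spanning subgraph of `G` covering all non-isolated vertices; its components are
stars, and `R = G - E(F)` has maximum degree at most 2. Take a maximal family of pairwise
edge-disjoint paths with 512 edges in `R`, and choose one edge from each of them such that no two
chosen edges meet the same star (an independent transversal, found by counting). The parts are
the components of `F` together with the chosen edges.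
-/

set_option autoImplicit false

namespace Pool.Agent.Results.MP_cb714e_co.BlockingPartition

open Finset

/-- The partition into the classes of `s` is connected: each part induces a connected subgraph. -/
def IsConnectedPartition {V : Type} (G : SimpleGraph V) (s : Setoid V) : Prop :=
  ∀ v, (G.induce {u | s.r v u}).Connected

/-- each part has at most `c` elements -/
def WidthLE {V : Type} (s : Setoid V) (c : ℕ) : Prop := ∀ v, {u | s.r v u}.ncard ≤ c

/-- a walk is clean if it has at most one vertex in each part -/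
def IsClean {V : Type} {G : SimpleGraph V} (s : Setoid V) {u v : V} (p : G.Walk u v) : Prop :=
  ∀ x ∈ p.support, ∀ y ∈ p.support, s.r x y → x = y

/-- `ℓ`-blocking partitions -/
def IsBlocking {V : Type} (G : SimpleGraph V) (ℓ : ℕ) (s : Setoid V) : Prop :=
  IsConnectedPartition G s ∧ ∀ (u v : V) (p : G.Walk u v), p.IsPath → IsClean s p → p.length ≤ ℓ

section Transversal

variable {α : Type} [Fintype α] [DecidableEq α]

open Classical in
/-- independent transversals of a family of blocks -/
noncomputable def Tr (conf : α → α → Prop) (S : Finset (Finset α)) : Finset (Finset α) :=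
  univ.filter (fun X => X ⊆ S.biUnion id ∧ (∀ B ∈ S, (X ∩ B).card = 1) ∧
    ∀ u ∈ X, ∀ v ∈ X, ¬ conf u v)

theorem mem_Tr (conf : α → α → Prop) (S : Finset (Finset α)) (X : Finset α) :
    X ∈ Tr conf S ↔ X ⊆ S.biUnion id ∧ (∀ B ∈ S, (X ∩ B).card = 1) ∧
      ∀ u ∈ X, ∀ v ∈ X, ¬ conf u v := by
  simp [Tr]

theorem Tr_empty (conf : α → α → Prop) : (Tr conf ∅).card = 1 := by
  have : Tr conf (∅ : Finset (Finset α)) = {∅} := by
    ext X
    rw [mem_Tr, Finset.mem_singleton]
    constructor
    · rintro ⟨h, -, -⟩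
      simpa using h
    · rintro rfl
      simp
  rw [this, Finset.card_singleton]

open Classical in
/-- the number of transversals through a given vertex -/
theorem through (conf : α → α → Prop) (S : Finset (Finset α))
    (hdis : ∀ B ∈ S, ∀ B' ∈ S, B ≠ B' → Disjoint B B') (B : Finset α) (hB : B ∈ S) (u : α)
    (hu : u ∈ B) :
    ((Tr conf S).filter (fun X => u ∈ X)).card ≤ (Tr conf (S.erase B)).card := by
  apply Finset.card_le_card_of_injOn (fun X => X.erase u)
  · intro X hX
    rw [Finset.mem_coe, Finset.mem_filter, mem_Tr] at hX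
    obtain ⟨⟨h1, h2, h3⟩, h4⟩ := hX
    rw [Finset.mem_coe, mem_Tr]
    have hXB : X ∩ B = {u} := by
      obtain ⟨w, hw⟩ := Finset.card_eq_one.1 (h2 B hB)
      have : u ∈ X ∩ B := Finset.mem_inter.2 ⟨h4, hu⟩
      rw [hw, Finset.mem_singleton] at this
      rw [hw, this]
    refine ⟨?_, ?_, ?_⟩
    · intro x hx
      rw [Finset.mem_erase] at hx
      have hx1 := h1 hx.2
      rw [Finset.mem_biUnion] at hx1 ⊢
      obtain ⟨B', hB', hx'⟩ := hx1
      refine ⟨B', Finset.mem_erase.2 ⟨?_, hB'⟩, hx'⟩
      rintro rfl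
      have : x ∈ X ∩ B' := Finset.mem_inter.2 ⟨hx.2, hx'⟩
      rw [hXB, Finset.mem_singleton] at this
      exact hx.1 this
    · intro B' hB'
      rw [Finset.mem_erase] at hB'
      rw [← h2 B' hB'.2]
      congr 1
      ext x
      simp only [Finset.mem_inter, Finset.mem_erase]
      constructor
      · rintro ⟨⟨-, hx⟩, hx'⟩
        exact ⟨hx, hx'⟩
      · rintro ⟨hx, hx'⟩
        refine ⟨⟨?_, hx⟩, hx'⟩
        rintro rfl
        exact Finset.disjoint_left.1 (hdis B' hB'.2 B hB hB'.1) hx' hu
    · intro x hx y hy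
      exact h3 x (Finset.mem_of_mem_erase hx) y (Finset.mem_of_mem_erase hy)
  · intro X hX Y hY h
    rw [Finset.mem_coe, Finset.mem_filter] at hX hY
    have := congrArg (insert u) h
    simpa [Finset.insert_erase hX.2, Finset.insert_erase hY.2] using this

open Classical in
theorem step (conf : α → α → Prop) (D b : ℕ) (hb : 4 * D ≤ b) (hb0 : 0 < b)
    (hsymm : ∀ u v, conf u v → conf v u) (hirr : ∀ u, ¬ conf u u)
    (hdeg : ∀ v, (univ.filter (fun u => conf v u)).card ≤ D) (S : Finset (Finset α)) :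
    (∀ B ∈ S, B.card = b) → (∀ B ∈ S, ∀ B' ∈ S, B ≠ B' → Disjoint B B') →
    ∀ B : Finset α, B.card = b → B ∉ S → (∀ B' ∈ S, Disjoint B B') →
      b * (Tr conf S).card ≤ 2 * (Tr conf (insert B S)).card := by
  induction S using Finset.strongInduction with
  | H S ih =>
  intro hcard hdis B hBb hBS hBdis
  -- bad pairs
  have hthr : ∀ u, b * ((Tr conf S).filter (fun X => u ∈ X)).card ≤ 2 * (Tr conf S).card := by
    intro u
    by_cases hu : ∃ B' ∈ S, u ∈ B'
    · obtain ⟨B', hB', hu'⟩ := hu
      have h1 := through conf S hdis B' hB' u hu'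
      have h2 := ih (S.erase B') (Finset.erase_ssubset hB')
        (fun B1 h => hcard B1 (Finset.mem_of_mem_erase h))
        (fun B1 h B2 h' => hdis B1 (Finset.mem_of_mem_erase h) B2 (Finset.mem_of_mem_erase h'))
        B' (hcard B' hB') (Finset.notMem_erase _ _)
        (fun B1 h => hdis B' hB' B1 (Finset.mem_of_mem_erase h)
          (fun e => (Finset.mem_erase.1 h).1 e.symm))
      rw [Finset.insert_erase hB'] at h2
      exact (Nat.mul_le_mul_left b h1).trans h2
    · have : (Tr conf S).filter (fun X => u ∈ X) = ∅ := by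
        rw [Finset.filter_eq_empty_iff]
        intro X hX hu'
        rw [mem_Tr] at hX
        have := hX.1 hu'
        rw [Finset.mem_biUnion] at this
        exact hu this
      rw [this]
      simp
  have hbadv : ∀ v, b * ((Tr conf S).filter (fun X => ∃ u ∈ X, conf v u)).card ≤
      D * (2 * (Tr conf S).card) := by
    intro v
    have h1 : (Tr conf S).filter (fun X => ∃ u ∈ X, conf v u) ⊆
        (univ.filter (fun u => conf v u)).biUnion
          (fun u => (Tr conf S).filter (fun X => u ∈ X)) := by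
      intro X hX
      rw [Finset.mem_filter] at hX
      obtain ⟨hX, u, hu, hc⟩ := hX
      rw [Finset.mem_biUnion]
      exact ⟨u, by simp [hc], Finset.mem_filter.2 ⟨hX, hu⟩⟩
    calc b * ((Tr conf S).filter (fun X => ∃ u ∈ X, conf v u)).card
        ≤ b * ∑ u ∈ univ.filter (fun u => conf v u), ((Tr conf S).filter (fun X => u ∈ X)).card :=
          Nat.mul_le_mul_left b ((Finset.card_le_card h1).trans Finset.card_biUnion_le)
      _ = ∑ u ∈ univ.filter (fun u => conf v u), b * ((Tr conf S).filter (fun X => u ∈ X)).card :=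
          Finset.mul_sum _ _ _
      _ ≤ ∑ u ∈ univ.filter (fun u => conf v u), 2 * (Tr conf S).card :=
          Finset.sum_le_sum (fun u _ => hthr u)
      _ = (univ.filter (fun u => conf v u)).card * (2 * (Tr conf S).card) := by
          rw [Finset.sum_const, smul_eq_mul]
      _ ≤ D * (2 * (Tr conf S).card) := Nat.mul_le_mul_right _ (hdeg v)
  -- good pairs
  have hgood : (B.sigma (fun v => (Tr conf S).filter (fun X => ¬ ∃ u ∈ X, conf v u))).card ≤
      (Tr conf (insert B S)).card := by
    apply Finset.card_le_card_of_injOn (fun q => insert q.1 q.2)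
    · rintro ⟨v, X⟩ hq
      rw [Finset.mem_coe, Finset.mem_sigma, Finset.mem_filter, mem_Tr] at hq
      obtain ⟨hv, ⟨h1, h2, h3⟩, h4⟩ := hq
      simp only at hv h1 h2 h3 h4 ⊢
      rw [Finset.mem_coe, mem_Tr]
      refine ⟨?_, ?_, ?_⟩
      · intro x hx
        rw [Finset.mem_insert] at hx
        rw [Finset.mem_biUnion]
        rcases hx with rfl | hx
        · exact ⟨B, Finset.mem_insert_self _ _, hv⟩
        · have := h1 hx
          rw [Finset.mem_biUnion] at this
          obtain ⟨B', hB', hx'⟩ := this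
          exact ⟨B', Finset.mem_insert_of_mem hB', hx'⟩
      · intro B' hB'
        rw [Finset.mem_insert] at hB'
        rcases hB' with rfl | hB'
        · rw [Finset.card_eq_one]
          refine ⟨v, ?_⟩
          ext x
          rw [Finset.mem_inter, Finset.mem_insert, Finset.mem_singleton]
          constructor
          · rintro ⟨rfl | hx, hx'⟩
            · rfl
            · exfalso
              have := h1 hx
              rw [Finset.mem_biUnion] at this
              obtain ⟨B1, hB1, hx1⟩ := this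
              exact Finset.disjoint_left.1 (hBdis B1 hB1) hx' hx1
          · rintro rfl
            exact ⟨Or.inl rfl, hv⟩
        · rw [← h2 B' hB']
          congr 1
          ext x
          rw [Finset.mem_inter, Finset.mem_inter, Finset.mem_insert]
          constructor
          · rintro ⟨rfl | hx, hx'⟩
            · exact absurd hx' (Finset.disjoint_left.1 (hBdis B' hB') hv)
            · exact ⟨hx, hx'⟩
          · rintro ⟨hx, hx'⟩
            exact ⟨Or.inr hx, hx'⟩
      · intro x hx y hy hc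
        rw [Finset.mem_insert] at hx hy
        rcases hx with rfl | hx <;> rcases hy with rfl | hy
        · exact hirr _ hc
        · exact h4 ⟨y, hy, hc⟩
        · exact h4 ⟨x, hx, hsymm _ _ hc⟩
        · exact h3 x hx y hy hc
    · rintro ⟨v, X⟩ hq ⟨v', X'⟩ hq' h
      rw [Finset.mem_coe, Finset.mem_sigma, Finset.mem_filter, mem_Tr] at hq hq'
      obtain ⟨hv, ⟨h1, -, -⟩, -⟩ := hq
      obtain ⟨hv', ⟨h1', -, -⟩, -⟩ := hq'
      simp only at hv h1 hv' h1' h
      have nb : ∀ Y : Finset α, Y ⊆ S.biUnion id → ∀ x ∈ Y, x ∉ B := by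
        intro Y hY x hx hx'
        have := hY hx
        rw [Finset.mem_biUnion] at this
        obtain ⟨B1, hB1, hx1⟩ := this
        exact Finset.disjoint_left.1 (hBdis B1 hB1) hx' hx1
      have hvv : v = v' := by
        have : v ∈ insert v' X' := h ▸ Finset.mem_insert_self v X
        rw [Finset.mem_insert] at this
        rcases this with h | h
        · exact h
        · exact absurd hv (nb X' h1' v h)
      subst hvv
      have hXX : X = X' := by
        ext x
        have hx : x ∈ insert v X ↔ x ∈ insert v X' := by rw [h]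
        rw [Finset.mem_insert, Finset.mem_insert] at hx
        constructor
        · intro hxX
          rcases hx.1 (Or.inr hxX) with rfl | h'
          · exact absurd hv (nb X h1 _ hxX)
          · exact h'
        · intro hxX
          rcases hx.2 (Or.inr hxX) with rfl | h'
          · exact absurd hv (nb X' h1' _ hxX)
          · exact h'
      rw [hXX]
  rw [Finset.card_sigma] at hgood
  have hsum : ∑ v ∈ B, ((Tr conf S).filter (fun X => ¬ ∃ u ∈ X, conf v u)).card +
      ∑ v ∈ B, ((Tr conf S).filter (fun X => ∃ u ∈ X, conf v u)).card = b * (Tr conf S).card := by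
    rw [← Finset.sum_add_distrib]
    have : ∀ v ∈ B, ((Tr conf S).filter (fun X => ¬ ∃ u ∈ X, conf v u)).card +
        ((Tr conf S).filter (fun X => ∃ u ∈ X, conf v u)).card = (Tr conf S).card := by
      intro v _
      rw [add_comm]
      exact Finset.card_filter_add_card_filter_not (s := Tr conf S) (fun X => ∃ u ∈ X, conf v u)
    rw [Finset.sum_congr rfl this, Finset.sum_const, hBb, smul_eq_mul]
  have hbad : b * ∑ v ∈ B, ((Tr conf S).filter (fun X => ∃ u ∈ X, conf v u)).card ≤
      b * (D * (2 * (Tr conf S).card)) := by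
    rw [Finset.mul_sum]
    calc ∑ v ∈ B, b * ((Tr conf S).filter (fun X => ∃ u ∈ X, conf v u)).card
        ≤ ∑ v ∈ B, D * (2 * (Tr conf S).card) := Finset.sum_le_sum (fun v _ => hbadv v)
      _ = b * (D * (2 * (Tr conf S).card)) := by rw [Finset.sum_const, hBb, smul_eq_mul]
  have hbad' := Nat.le_of_mul_le_mul_left hbad hb0
  have h4 : 4 * D * (Tr conf S).card ≤ b * (Tr conf S).card := Nat.mul_le_mul_right _ hb
  nlinarith

/-- a family of disjoint blocks of size `b ≥ 4 D` has an independent transversal -/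
theorem exists_transversal (conf : α → α → Prop) (D b : ℕ) (hb : 4 * D ≤ b) (hb0 : 0 < b)
    (hsymm : ∀ u v, conf u v → conf v u) (hirr : ∀ u, ¬ conf u u)
    (hdeg : ∀ v, {u | conf v u}.ncard ≤ D) (S : Finset (Finset α))
    (hcard : ∀ B ∈ S, B.card = b) (hdis : ∀ B ∈ S, ∀ B' ∈ S, B ≠ B' → Disjoint B B') :
    ∃ X : Finset α, X ⊆ S.biUnion id ∧ (∀ B ∈ S, (X ∩ B).card = 1) ∧
      ∀ u ∈ X, ∀ v ∈ X, ¬ conf u v := by
  classical
  have hdeg' : ∀ v, (univ.filter (fun u => conf v u)).card ≤ D := by
    intro v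
    have := hdeg v
    rw [Set.ncard_eq_toFinset_card'] at this
    simpa using this
  have key : ∀ S' : Finset (Finset α), S' ⊆ S → 0 < (Tr conf S').card := by
    intro S'
    induction S' using Finset.induction_on with
    | empty => intro _; rw [Tr_empty]; omega
    | insert B S' hBS ih =>
      intro hsub
      have hB : B ∈ S := hsub (Finset.mem_insert_self _ _)
      have hS' : S' ⊆ S := fun x hx => hsub (Finset.mem_insert_of_mem hx)
      have h1 := step conf D b hb hb0 hsymm hirr hdeg' S' (fun B' h => hcard B' (hS' h))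
        (fun B' h B'' h' => hdis B' (hS' h) B'' (hS' h')) B (hcard B hB) hBS
        (fun B' h => hdis B hB B' (hS' h) (fun e => hBS (e ▸ h)))
      have h2 := ih hS'
      have h3 : 0 < b * (Tr conf S').card := Nat.mul_pos hb0 h2
      omega
  obtain ⟨X, hX⟩ := Finset.card_pos.1 (key S (Finset.Subset.refl _))
  exact ⟨X, (mem_Tr conf S X).1 hX⟩

end Transversal

section Balls

variable {V : Type} [Fintype V]

open Classical in
/-- closed neighbourhood -/
noncomputable def cn (G : SimpleGraph V) (x : V) : Finset V :=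
  univ.filter (fun y => y = x ∨ G.Adj x y)

open Classical in
/-- ball of radius `k` -/
noncomputable def ball (G : SimpleGraph V) : ℕ → V → Finset V
  | 0, x => {x}
  | k + 1, x => (ball G k x).biUnion (cn G)

theorem mem_cn (G : SimpleGraph V) (x y : V) : y ∈ cn G x ↔ y = x ∨ G.Adj x y := by
  simp [cn]

theorem card_cn (G : SimpleGraph V) (h3 : ∀ v, {u | G.Adj v u}.ncard ≤ 3) (x : V) :
    (cn G x).card ≤ 4 := by
  classical
  have h : ((cn G x : Finset V) : Set V) ⊆ insert x {u | G.Adj x u} := by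
    intro y hy
    rw [Finset.mem_coe, mem_cn] at hy
    exact hy
  have h1 := Set.ncard_le_ncard h (Set.toFinite _)
  rw [Set.ncard_coe_finset] at h1
  have h2 := Set.ncard_insert_le x {u | G.Adj x u}
  have := h3 x
  omega

theorem mem_ball_zero (G : SimpleGraph V) (x y : V) : y ∈ ball G 0 x ↔ y = x := by
  simp [ball]

theorem mem_ball_succ (G : SimpleGraph V) (k : ℕ) (x y : V) :
    y ∈ ball G (k + 1) x ↔ ∃ z ∈ ball G k x, y = z ∨ G.Adj z y := by
  simp only [ball, Finset.mem_biUnion, mem_cn]

theorem card_ball (G : SimpleGraph V) (h3 : ∀ v, {u | G.Adj v u}.ncard ≤ 3) (k : ℕ) (x : V) :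
    (ball G k x).card ≤ 4 ^ k := by
  classical
  induction k with
  | zero => simp [ball]
  | succ k ih =>
    calc (ball G (k + 1) x).card ≤ ∑ z ∈ ball G k x, (cn G z).card := Finset.card_biUnion_le
      _ ≤ ∑ z ∈ ball G k x, 4 := Finset.sum_le_sum (fun z _ => card_cn G h3 z)
      _ = (ball G k x).card * 4 := by rw [Finset.sum_const, smul_eq_mul]
      _ ≤ 4 ^ k * 4 := Nat.mul_le_mul_right _ ih
      _ = 4 ^ (k + 1) := (pow_succ _ _).symm

theorem ball_trans (G : SimpleGraph V) (k m : ℕ) (x y z : V) (h1 : y ∈ ball G k x)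
    (h2 : z ∈ ball G m y) : z ∈ ball G (k + m) x := by
  induction m generalizing z with
  | zero =>
    rw [mem_ball_zero] at h2
    rw [h2]; exact h1
  | succ m ih =>
    rw [mem_ball_succ] at h2
    obtain ⟨w, hw, hz⟩ := h2
    rw [← Nat.add_assoc, mem_ball_succ]
    exact ⟨w, ih w hw, hz⟩

theorem ball_symm (G : SimpleGraph V) (k : ℕ) (x y : V) (h : y ∈ ball G k x) :
    x ∈ ball G k y := by
  induction k generalizing y with
  | zero =>
    rw [mem_ball_zero] at h ⊢
    exact h.symm
  | succ k ih =>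
    rw [mem_ball_succ] at h
    obtain ⟨w, hw, hz⟩ := h
    have h1 := ih w hw
    have h2 : w ∈ ball G 1 y := by
      rw [mem_ball_succ]
      refine ⟨y, by rw [mem_ball_zero], ?_⟩
      rcases hz with h | h
      · exact Or.inl h.symm
      · exact Or.inr h.symm
    have := ball_trans G 1 k y w x h2 h1
    rwa [Nat.add_comm] at this

/-- `F` covers the non-isolated vertices of `G` -/
def Cov (G F : SimpleGraph V) : Prop := F ≤ G ∧ ∀ x y, G.Adj x y → ∃ z, F.Adj x z

/-- components are stars -/
def Star (F : SimpleGraph V) : Prop :=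
  ∀ x y, F.Adj x y → (∀ z, F.Adj x z → z = y) ∨ (∀ z, F.Adj y z → z = x)

theorem exists_cover (G : SimpleGraph V) : ∃ F : SimpleGraph V, Cov G F ∧ Star F := by
  classical
  have hfin : {F : SimpleGraph V | Cov G F}.Finite := Set.toFinite _
  obtain ⟨F, hF⟩ := hfin.exists_minimal ⟨G, le_refl _, fun x y h => ⟨y, h⟩⟩
  refine ⟨F, hF.prop, ?_⟩
  intro x y hxy
  by_contra hcon
  push Not at hcon
  obtain ⟨⟨x', hx', hxne⟩, ⟨y', hy', hyne⟩⟩ := hcon
  have hcov : Cov G (F.deleteEdges {s(x, y)}) := by
    refine ⟨(SimpleGraph.deleteEdges_le _).trans hF.prop.1, ?_⟩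
    intro a b hab
    obtain ⟨c, hc⟩ := hF.prop.2 a b hab
    by_cases hax : a = x
    · subst hax
      refine ⟨x', ?_⟩
      rw [SimpleGraph.deleteEdges_adj]
      refine ⟨hx', ?_⟩
      rw [Set.mem_singleton_iff, Sym2.eq_iff]
      rintro (⟨-, h⟩ | ⟨h, -⟩)
      · exact hxne h
      · exact hxy.ne h
    by_cases hay : a = y
    · subst hay
      refine ⟨y', ?_⟩
      rw [SimpleGraph.deleteEdges_adj]
      refine ⟨hy', ?_⟩
      rw [Set.mem_singleton_iff, Sym2.eq_iff]
      rintro (⟨h, -⟩ | ⟨-, h⟩)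
      · exact hax h
      · exact hyne h
    refine ⟨c, ?_⟩
    rw [SimpleGraph.deleteEdges_adj]
    refine ⟨hc, ?_⟩
    rw [Set.mem_singleton_iff, Sym2.eq_iff]
    rintro (⟨h, -⟩ | ⟨h, -⟩)
    · exact hax h
    · exact hay h
  have hle := hF.le_of_le hcov (SimpleGraph.deleteEdges_le _)
  have := hle hxy
  rw [SimpleGraph.deleteEdges_adj] at this
  exact this.2 rfl

theorem reach_ball (G F : SimpleGraph V) (hF : F ≤ G) (hS : Star F) (x y : V)
    (h : F.Reachable x y) : y ∈ ball G 2 x := by
  have key : ∀ z, (z = x ∨ F.Adj x z ∨ ∃ w, F.Adj x w ∧ F.Adj w z) → ∀ z', F.Adj z z' →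
      (z' = x ∨ F.Adj x z' ∨ ∃ w, F.Adj x w ∧ F.Adj w z') := by
    rintro z (rfl | h | ⟨w, h1, h2⟩) z' hz
    · exact Or.inr (Or.inl hz)
    · exact Or.inr (Or.inr ⟨z, h, hz⟩)
    · rcases hS w z h2 with h3 | h3
      · have := h3 x h1.symm
        rw [this]
        exact Or.inr (Or.inl hz)
      · have := h3 z' hz
        rw [this]
        exact Or.inr (Or.inl h1)
  have key2 : y = x ∨ F.Adj x y ∨ ∃ w, F.Adj x w ∧ F.Adj w y := by
    obtain ⟨p⟩ := h
    have : ∀ (a b : V) (q : F.Walk a b), (a = x ∨ F.Adj x a ∨ ∃ w, F.Adj x w ∧ F.Adj w a) →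
        (b = x ∨ F.Adj x b ∨ ∃ w, F.Adj x w ∧ F.Adj w b) := by
      intro a b q
      induction q with
      | nil => exact fun h => h
      | cons hadj q ih => exact fun h => ih (key _ h _ hadj)
    exact this x y p (Or.inl rfl)
  rw [mem_ball_succ]
  rcases key2 with rfl | h | ⟨w, h1, h2⟩
  · refine ⟨y, ?_, Or.inl rfl⟩
    rw [mem_ball_succ]
    exact ⟨y, by rw [mem_ball_zero], Or.inl rfl⟩
  · refine ⟨x, ?_, Or.inr (hF h)⟩
    rw [mem_ball_succ]
    exact ⟨x, by rw [mem_ball_zero], Or.inl rfl⟩
  · refine ⟨w, ?_, Or.inr (hF h2)⟩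
    rw [mem_ball_succ]
    exact ⟨x, by rw [mem_ball_zero], Or.inr (hF h1)⟩

end Balls

section Blocks

variable {V : Type} [Fintype V]

/-- `f 0, ..., f L` is a path of `R` -/
def IsP (R : SimpleGraph V) (L : ℕ) (f : ℕ → V) : Prop :=
  (∀ i < L, R.Adj (f i) (f (i + 1))) ∧ ∀ i j, i ≤ L → j ≤ L → f i = f j → i = j

open Classical in
/-- the edges of the path -/
noncomputable def eds (L : ℕ) (f : ℕ → V) : Finset (Sym2 V) :=
  (Finset.range L).image (fun i => s(f i, f (i + 1)))

omit [Fintype V] in
theorem mem_eds (L : ℕ) (f : ℕ → V) (e : Sym2 V) :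
    e ∈ eds L f ↔ ∃ i < L, s(f i, f (i + 1)) = e := by
  simp [eds]

omit [Fintype V] in
theorem card_eds (R : SimpleGraph V) (L : ℕ) (f : ℕ → V) (h : IsP R L f) :
    (eds L f).card = L := by
  classical
  unfold eds
  rw [Finset.card_image_of_injOn, Finset.card_range]
  intro i hi j hj hij
  rw [Finset.mem_coe, Finset.mem_range] at hi hj
  simp only at hij
  rw [Sym2.eq_iff] at hij
  rcases hij with ⟨h1, -⟩ | ⟨h1, h2⟩
  · exact h.2 i j hi.le hj.le h1
  · have e1 := h.2 i (j + 1) hi.le hj h1
    have e2 := h.2 (i + 1) j hi hj.le h2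
    omega

omit [Fintype V] in
/-- neighbours of an inner vertex of a path when degrees are at most 2 -/
theorem nbr (R : SimpleGraph V) [Finite V] (h2 : ∀ v, {u | R.Adj v u}.ncard ≤ 2) (L : ℕ)
    (f : ℕ → V) (h : IsP R L f) (i : ℕ) (hi : 0 < i) (hiL : i < L) (z : V)
    (hz : R.Adj (f i) z) : z = f (i - 1) ∨ z = f (i + 1) := by
  by_contra hcon
  push Not at hcon
  have hne : f (i - 1) ≠ f (i + 1) := by
    intro e
    have := h.2 (i - 1) (i + 1) (by omega) (by omega) e
    omega
  have hsub : ({f (i - 1), f (i + 1), z} : Set V) ⊆ {u | R.Adj (f i) u} := by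
    intro u hu
    rcases hu with rfl | rfl | rfl
    · have := h.1 (i - 1) (by omega)
      rw [show i - 1 + 1 = i by omega] at this
      exact this.symm
    · exact h.1 i hiL
    · exact hz
  have h3 := Set.ncard_le_ncard hsub (Set.toFinite _)
  have h4 : ({f (i - 1), f (i + 1), z} : Set V).ncard = 3 :=
    Set.ncard_eq_three.2 ⟨_, _, _, hne, hcon.1.symm, hcon.2.symm, rfl⟩
  have := h2 (f i)
  omega

omit [Fintype V] in
/-- an edge of `R` meeting an inner edge of a path is an adjacent edge of the path -/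
theorem next_edge (R : SimpleGraph V) [Finite V] (h2 : ∀ v, {u | R.Adj v u}.ncard ≤ 2) (L : ℕ)
    (f : ℕ → V) (h : IsP R L f) (i : ℕ) (hi : 0 < i) (hiL : i + 1 < L) (a b : V)
    (hab : R.Adj a b) (ha : a ∈ s(f i, f (i + 1))) :
    ∃ i', i ≤ i' + 1 ∧ i' ≤ i + 1 ∧ s(a, b) = s(f i', f (i' + 1)) := by
  rw [Sym2.mem_iff] at ha
  rcases ha with rfl | rfl
  · rcases nbr R h2 L f h i hi (by omega) b hab with rfl | rfl
    · refine ⟨i - 1, by omega, by omega, ?_⟩
      rw [show i - 1 + 1 = i by omega, Sym2.eq_swap]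
    · exact ⟨i, by omega, by omega, rfl⟩
  · rcases nbr R h2 L f h (i + 1) (by omega) hiL b hab with rfl | rfl
    · refine ⟨i, by omega, by omega, ?_⟩
      rw [show i + 1 - 1 = i by omega, Sym2.eq_swap]
    · exact ⟨i + 1, by omega, by omega, rfl⟩

omit [Fintype V] in
/-- a path with `b` edges sharing an edge with the middle third of a path with `3 b` edges lies in
that path -/
theorem contained (R : SimpleGraph V) [Finite V] (h2 : ∀ v, {u | R.Adj v u}.ncard ≤ 2) (b : ℕ)
    (f g : ℕ → V) (hf : IsP R (3 * b) f) (hg : IsP R b g) (i j : ℕ) (hi : b ≤ i)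
    (hi2 : i < 2 * b) (hj : j < b) (he : s(g j, g (j + 1)) = s(f i, f (i + 1))) :
    eds b g ⊆ eds (3 * b) f := by
  have up : ∀ t, j + t < b → ∃ i', i ≤ i' + t ∧ i' ≤ i + t ∧
      s(g (j + t), g (j + t + 1)) = s(f i', f (i' + 1)) := by
    intro t
    induction t with
    | zero => intro _; exact ⟨i, by omega, by omega, he⟩
    | succ t ih =>
      intro ht
      obtain ⟨i', h1, h3, h4⟩ := ih (by omega)
      obtain ⟨i'', h5, h6, h7⟩ := next_edge R h2 (3 * b) f hf i' (by omega) (by omega)
        (g (j + (t + 1))) (g (j + (t + 1) + 1)) (hg.1 _ ht) (by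
          rw [← h4]
          exact Sym2.mem_mk_right _ _)
      exact ⟨i'', by omega, by omega, h7⟩
  have down : ∀ t, t ≤ j → ∃ i', i ≤ i' + t ∧ i' ≤ i + t ∧
      s(g (j - t), g (j - t + 1)) = s(f i', f (i' + 1)) := by
    intro t
    induction t with
    | zero => intro _; exact ⟨i, by omega, by omega, he⟩
    | succ t ih =>
      intro ht
      obtain ⟨i', h1, h3, h4⟩ := ih (by omega)
      have hadj := hg.1 (j - (t + 1)) (by omega)
      rw [show j - (t + 1) + 1 = j - t by omega] at hadj ⊢
      obtain ⟨i'', h5, h6, h7⟩ := next_edge R h2 (3 * b) f hf i' (by omega) (by omega)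
        (g (j - t)) (g (j - (t + 1))) hadj.symm (by
          rw [← h4]
          exact Sym2.mem_mk_left _ _)
      refine ⟨i'', by omega, by omega, ?_⟩
      rw [Sym2.eq_swap]
      exact h7
  intro e hmem
  rw [mem_eds] at hmem ⊢
  obtain ⟨k, hk, rfl⟩ := hmem
  rcases le_or_gt j k with hjk | hjk
  · obtain ⟨i', h1, h3, h4⟩ := up (k - j) (by omega)
    rw [show j + (k - j) = k by omega] at h4
    exact ⟨i', by omega, h4.symm⟩
  · obtain ⟨i', h1, h3, h4⟩ := down (j - k) (by omega)
    rw [show j - (j - k) = k by omega] at h4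
    exact ⟨i', by omega, h4.symm⟩

open Classical in
/-- a maximal family of edge-disjoint paths with `b` edges -/
theorem exists_family (R : SimpleGraph V) (b : ℕ) (hb : 0 < b) :
    ∃ S : Finset (Finset (Sym2 V)), (∀ B ∈ S, ∃ g, IsP R b g ∧ B = eds b g) ∧
      (∀ B ∈ S, ∀ B' ∈ S, B ≠ B' → Disjoint B B') ∧
      ∀ g, IsP R b g → ∃ B ∈ S, ¬ Disjoint B (eds b g) := by
  let P : Finset (Finset (Finset (Sym2 V))) := univ.filter (fun S =>
    (∀ B ∈ S, ∃ g, IsP R b g ∧ B = eds b g) ∧ (∀ B ∈ S, ∀ B' ∈ S, B ≠ B' → Disjoint B B'))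
  have hne : P.Nonempty := ⟨∅, by simp [P]⟩
  obtain ⟨S, hS, hmax⟩ := P.exists_max_image Finset.card hne
  rw [Finset.mem_filter] at hS
  refine ⟨S, hS.2.1, hS.2.2, ?_⟩
  intro g hg
  by_contra hcon
  push Not at hcon
  have hnot : eds b g ∉ S := by
    intro h
    have := hcon _ h
    rw [disjoint_self, Finset.bot_eq_empty] at this
    have h1 := card_eds R b g hg
    rw [this, Finset.card_empty] at h1
    omega
  have hins : insert (eds b g) S ∈ P := by
    rw [Finset.mem_filter]
    refine ⟨Finset.mem_univ _, ?_, ?_⟩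
    · intro B hB
      rw [Finset.mem_insert] at hB
      rcases hB with rfl | hB
      · exact ⟨g, hg, rfl⟩
      · exact hS.2.1 B hB
    · intro B hB B' hB' hne
      rw [Finset.mem_insert] at hB hB'
      rcases hB with rfl | hB <;> rcases hB' with rfl | hB'
      · exact absurd rfl hne
      · exact (hcon B' hB').symm
      · exact hcon B hB
      · exact hS.2.2 B hB B' hB' hne
  have := hmax _ hins
  rw [Finset.card_insert_of_notMem hnot] at this
  omega

end Blocks

section Main

variable {V : Type} [Fintype V]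

/-- conflicting edges: they meet the same star -/
def conf (G F : SimpleGraph V) (e e' : Sym2 V) : Prop :=
  e ≠ e' ∧ e ∈ G.edgeSet ∧ e' ∈ G.edgeSet ∧ ∃ x ∈ e, ∃ y ∈ e', F.Reachable x y

theorem conf_deg (G F : SimpleGraph V) (h3 : ∀ v, {u | G.Adj v u}.ncard ≤ 3) (hF : F ≤ G)
    (hS : Star F) (e : Sym2 V) : {e' | conf G F e e'}.ncard ≤ 128 := by
  classical
  induction e using Sym2.ind with
  | _ a b =>
  have hsub : {e' | conf G F s(a, b) e'} ⊆
      (((ball G 2 a ∪ ball G 2 b).biUnion (fun x => (cn G x).image (fun y => s(x, y))) :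
        Finset (Sym2 V)) : Set (Sym2 V)) := by
    rintro e' ⟨-, -, he', x, hx, y, hy, hxy⟩
    rw [Finset.mem_coe, Finset.mem_biUnion]
    refine ⟨y, ?_, ?_⟩
    · rw [Finset.mem_union]
      have := reach_ball G F hF hS x y hxy
      rw [Sym2.mem_iff] at hx
      rcases hx with rfl | rfl
      · exact Or.inl this
      · exact Or.inr this
    · obtain ⟨z, rfl⟩ := hy
      rw [SimpleGraph.mem_edgeSet] at he'
      rw [Finset.mem_image]
      exact ⟨z, (mem_cn G y z).2 (Or.inr he'), rfl⟩
  have h1 := Set.ncard_le_ncard hsub (Set.toFinite _)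
  rw [Set.ncard_coe_finset] at h1
  refine h1.trans ?_
  calc ((ball G 2 a ∪ ball G 2 b).biUnion (fun x => (cn G x).image (fun y => s(x, y)))).card
      ≤ ∑ x ∈ ball G 2 a ∪ ball G 2 b, ((cn G x).image (fun y => s(x, y))).card :=
        Finset.card_biUnion_le
    _ ≤ ∑ x ∈ ball G 2 a ∪ ball G 2 b, 4 :=
        Finset.sum_le_sum (fun x _ => Finset.card_image_le.trans (card_cn G h3 x))
    _ = (ball G 2 a ∪ ball G 2 b).card * 4 := by rw [Finset.sum_const, smul_eq_mul]
    _ ≤ ((ball G 2 a).card + (ball G 2 b).card) * 4 :=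
        Nat.mul_le_mul_right _ (Finset.card_union_le _ _)
    _ ≤ (16 + 16) * 4 := by
        have h2 := card_ball G h3 2 a
        have h4 := card_ball G h3 2 b
        omega
    _ = 128 := rfl

theorem main (G : SimpleGraph V) (h3 : ∀ v, {u | G.Adj v u}.ncard ≤ 3) :
    ∃ s : Setoid V, IsBlocking G 1535 s ∧ WidthLE s 1024 := by
  classical
  obtain ⟨F, ⟨hF, hcov⟩, hS⟩ := exists_cover G
  -- the rest
  set R : SimpleGraph V := G \ F with hR
  have h2 : ∀ v, {u | R.Adj v u}.ncard ≤ 2 := by
    intro v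
    by_cases hv : ∃ y, G.Adj v y
    · obtain ⟨y, hy⟩ := hv
      obtain ⟨z, hz⟩ := hcov v y hy
      have hsub : {u | R.Adj v u} ⊆ {u | G.Adj v u} \ {z} := by
        intro u hu
        rw [Set.mem_ofPred_eq, hR, SimpleGraph.sdiff_adj] at hu
        refine ⟨hu.1, ?_⟩
        rw [Set.mem_singleton_iff]
        rintro rfl
        exact hu.2 hz
      have h4 := Set.ncard_le_ncard hsub (Set.toFinite _)
      have h5 : ({u | G.Adj v u} \ {z}).ncard < {u | G.Adj v u}.ncard :=
        Set.ncard_sdiff_singleton_lt_of_mem (hF hz) (Set.toFinite _)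
      have := h3 v
      omega
    · have : {u | R.Adj v u} = ∅ := by
        ext u
        simp only [Set.mem_ofPred_eq, Set.mem_empty_iff_false, iff_false]
        intro hu
        rw [hR, SimpleGraph.sdiff_adj] at hu
        exact hv ⟨u, hu.1⟩
      rw [this, Set.ncard_empty]
      omega
  obtain ⟨S, hS1, hS2, hS3⟩ := exists_family R 512 (by norm_num)
  obtain ⟨X, hX1, hX2, hX3⟩ := exists_transversal (conf G F) 128 512 (by norm_num) (by norm_num)
    (fun u v ⟨h1, h2, h3, x, hx, y, hy, h⟩ => ⟨h1.symm, h3, h2, y, hy, x, hx, h.symm⟩)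
    (fun u h => h.1 rfl) (conf_deg G F h3 hF hS) S
    (fun B hB => by
      obtain ⟨g, hg, rfl⟩ := hS1 B hB
      exact card_eds R 512 g hg) hS2
  have hXR : ∀ e ∈ X, e ∈ R.edgeSet := by
    intro e he
    have := hX1 he
    rw [Finset.mem_biUnion] at this
    obtain ⟨B, hB, heB⟩ := this
    obtain ⟨g, hg, rfl⟩ := hS1 B hB
    rw [id, mem_eds] at heB
    obtain ⟨i, hi, rfl⟩ := heB
    exact hg.1 i hi
  have hXG : ∀ e ∈ X, e ∈ G.edgeSet := by
    intro e he
    exact SimpleGraph.edgeSet_mono (sdiff_le : R ≤ G) (hXR e he)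
  have hXeq : ∀ e ∈ X, ∀ e' ∈ X, ∀ x ∈ e, ∀ y ∈ e', F.Reachable x y → e = e' := by
    intro e he e' he' x hx y hy h
    by_contra hne
    exact hX3 e he e' he' ⟨hne, hXG e he, hXG e' he', x, hx, y, hy, h⟩
  set H : SimpleGraph V := F ⊔ SimpleGraph.fromEdgeSet (X : Set (Sym2 V)) with hH
  have hHadj : ∀ a b, H.Adj a b ↔ F.Adj a b ∨ (s(a, b) ∈ X ∧ a ≠ b) := by
    intro a b
    rw [hH, SimpleGraph.sup_adj, SimpleGraph.fromEdgeSet_adj, Finset.mem_coe]
  have hHG : H ≤ G := by
    intro a b hab
    rcases (hHadj a b).1 hab with h | ⟨h, -⟩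
    · exact hF h
    · exact hXG _ h
  -- classes are small
  have hclass : ∀ x y, H.Reachable x y → (F.Reachable x y ∨
      ∃ x' y', s(x', y') ∈ X ∧ F.Reachable x x' ∧ F.Reachable y' y) := by
    intro x y hxy
    have key : ∀ a, (F.Reachable x a ∨ ∃ x' y', s(x', y') ∈ X ∧ F.Reachable x x' ∧
        F.Reachable y' a) → ∀ b, H.Adj a b → (F.Reachable x b ∨
        ∃ x' y', s(x', y') ∈ X ∧ F.Reachable x x' ∧ F.Reachable y' b) := by
      intro a ha b hab
      rcases (hHadj a b).1 hab with h | ⟨h, -⟩
      · rcases ha with ha | ⟨x', y', h1, h2, h3⟩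
        · exact Or.inl (ha.trans h.reachable)
        · exact Or.inr ⟨x', y', h1, h2, h3.trans h.reachable⟩
      · rcases ha with ha | ⟨x', y', h1, h2, h3⟩
        · exact Or.inr ⟨a, b, h, ha, SimpleGraph.Reachable.refl _⟩
        · have he := hXeq _ h1 _ h y' (Sym2.mem_mk_right _ _) a (Sym2.mem_mk_left _ _) h3
          rw [Sym2.eq_iff] at he
          rcases he with ⟨rfl, rfl⟩ | ⟨rfl, rfl⟩
          · exact Or.inr ⟨x', y', h1, h2, SimpleGraph.Reachable.refl _⟩
          · exact Or.inl h2
    obtain ⟨p⟩ := hxy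
    have : ∀ (a b : V) (q : H.Walk a b), (F.Reachable x a ∨ ∃ x' y', s(x', y') ∈ X ∧
        F.Reachable x x' ∧ F.Reachable y' a) → (F.Reachable x b ∨
        ∃ x' y', s(x', y') ∈ X ∧ F.Reachable x x' ∧ F.Reachable y' b) := by
      intro a b q
      induction q with
      | nil => exact fun h => h
      | cons hadj q ih => exact fun h => ih (key _ h _ hadj)
    exact this x y p (Or.inl (SimpleGraph.Reachable.refl _))
  refine ⟨H.reachableSetoid, ⟨?_, ?_⟩, ?_⟩
  · -- connected
    intro v
    have hmem : ∀ u, H.Reachable v u → u ∈ {u | H.reachableSetoid.r v u} := fun u hu => hu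
    have hreach : ∀ (u : V) (hu : H.Reachable v u),
        (G.induce {u | H.reachableSetoid.r v u}).Reachable
          ⟨v, hmem v (SimpleGraph.Reachable.refl _)⟩ ⟨u, hmem u hu⟩ := by
      intro u hu
      obtain ⟨p⟩ := hu
      have hsupp : ∀ x ∈ (p.mapLe hHG).support, x ∈ {u | H.reachableSetoid.r v u} := by
        intro x hx
        rw [SimpleGraph.Walk.support_mapLe_eq_support] at hx
        exact hmem x ⟨p.takeUntil x hx⟩
      exact ⟨(p.mapLe hHG).induce _ hsupp⟩
    have : Nonempty {u | H.reachableSetoid.r v u} := ⟨⟨v, hmem v (SimpleGraph.Reachable.refl _)⟩⟩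
    refine SimpleGraph.Connected.mk ?_
    rintro ⟨a, ha⟩ ⟨b, hb⟩
    exact (hreach a ha).symm.trans (hreach b hb)
  · -- blocking
    intro u v p hp hclean
    by_contra hlen
    push Not at hlen
    have hlen' : 3 * 512 ≤ p.length := by omega
    have hnr : ∀ i < p.length, ¬ H.Adj (p.getVert i) (p.getVert (i + 1)) := by
      intro i hi h
      have := hclean _ (p.getVert_mem_support i) _ (p.getVert_mem_support (i + 1)) h.reachable
      exact h.ne this
    have hf : IsP R (3 * 512) p.getVert := by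
      refine ⟨?_, ?_⟩
      · intro i hi
        rw [hR, SimpleGraph.sdiff_adj]
        refine ⟨p.adj_getVert_succ (by omega), fun h => ?_⟩
        exact hnr i (by omega) ((hHadj _ _).2 (Or.inl h))
      · intro i j hi hj hij
        exact hp.getVert_injOn (by simp only [Set.mem_ofPred_eq]; omega)
          (by simp only [Set.mem_ofPred_eq]; omega) hij
    have hg : IsP R 512 (fun i => p.getVert (512 + i)) := by
      refine ⟨fun i hi => hf.1 (512 + i) (by omega), fun i j hi hj hij => ?_⟩
      have := hf.2 (512 + i) (512 + j) (by omega) (by omega) hij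
      omega
    obtain ⟨B, hB, hnd⟩ := hS3 _ hg
    obtain ⟨g', hg', rfl⟩ := hS1 B hB
    rw [Finset.not_disjoint_iff] at hnd
    obtain ⟨e, he1, he2⟩ := hnd
    rw [mem_eds] at he1 he2
    obtain ⟨j, hj, rfl⟩ := he1
    obtain ⟨i, hi, he⟩ := he2
    have hcont := contained R h2 512 p.getVert g' hf hg' (512 + i) j (by omega) (by omega) hj
      he.symm
    obtain ⟨e0, he0⟩ := Finset.card_eq_one.1 (hX2 _ hB)
    have he0' : e0 ∈ X ∩ eds 512 g' := by rw [he0]; exact Finset.mem_singleton_self _
    rw [Finset.mem_inter] at he0'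
    have hm := hcont he0'.2
    rw [mem_eds] at hm
    obtain ⟨k, hk, rfl⟩ := hm
    exact hnr k (by omega) ((hHadj _ _).2 (Or.inr ⟨he0'.1, (hf.1 k hk).ne⟩))
  · -- width
    intro v
    have hsub : {u | H.reachableSetoid.r v u} ⊆ ((ball G 5 v : Finset V) : Set V) := by
      intro u hu
      rw [Finset.mem_coe]
      rcases hclass v u hu with h | ⟨x', y', h1, h2, h3⟩
      · have := reach_ball G F hF hS v u h
        have h4 : u ∈ ball G 3 u := by
          rw [mem_ball_succ]
          refine ⟨u, ?_, Or.inl rfl⟩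
          rw [mem_ball_succ]
          refine ⟨u, ?_, Or.inl rfl⟩
          rw [mem_ball_succ]
          exact ⟨u, by rw [mem_ball_zero], Or.inl rfl⟩
        exact ball_trans G 2 3 v u u this h4
      · have e1 := reach_ball G F hF hS v x' h2
        have e2 := reach_ball G F hF hS y' u h3
        have e3 : y' ∈ ball G 3 v := by
          rw [mem_ball_succ]
          exact ⟨x', e1, Or.inr (hXG _ h1)⟩
        exact ball_trans G 3 2 v y' u e3 e2
    have h4 := Set.ncard_le_ncard hsub (Set.toFinite _)
    rw [Set.ncard_coe_finset] at h4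
    exact h4.trans (card_ball G h3 5 v)

end Main

/-- There are `ℓ, c ≥ 1` such that every finite graph with maximum degree at most 3 has an
`ℓ`-blocking (connected) partition of width at most `c`; one can take `ℓ = 1535`, `c = 1024`. -/
theorem result : ∃ ℓ c : ℕ, 1 ≤ ℓ ∧ 1 ≤ c ∧ ∀ (V : Type) [Finite V] (G : SimpleGraph V),
    (∀ v, {u | G.Adj v u}.ncard ≤ 3) → ∃ s : Setoid V, IsBlocking G ℓ s ∧ WidthLE s c := by
  refine ⟨1535, 1024, by norm_num, by norm_num, ?_⟩
  intro V _ G h3
  have : Fintype V := Fintype.ofFinite V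
  exact main G h3

end Pool.Agent.Results.MP_cb714e_co.BlockingPartition
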